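import Mathlib
import Pool.Agent.R2.StarCore

/-!
# Maximum number of main vertices in a star set (MP_bb681f_co, Q1)
-/

set_option autoImplicit false

open Finset

namespace Pool.Agent.Results.MP_bb681f_co.MaxMain

open Classical in
/-- the eigenspace of the adjacency matrix of `G` for `lam` -/
noncomputable def eigsp {V : Type} [Finite V] (G : SimpleGraph V) (lam : ℝ) :
    Submodule ℝ (V → ℝ) where
  carrier := {x | ∀ v, ∑ᶠ u, (if G.Adj v u then x u else 0) = lam * x v}
  add_mem' := by
    intro x y hx hy v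
    have := Fintype.ofFinite V
    have hx' := hx v
    have hy' := hy v
    rw [finsum_eq_sum_of_fintype] at hx' hy' ⊢
    have h : ∀ u, (if G.Adj v u then (x + y) u else 0)
        = (if G.Adj v u then x u else 0) + (if G.Adj v u then y u else 0) := by
      intro u; by_cases h : G.Adj v u <;> simp [h]
    rw [Finset.sum_congr rfl (fun u _ => h u), Finset.sum_add_distrib, hx', hy', Pi.add_apply,
      mul_add]
  zero_mem' := by intro v; simp
  smul_mem' := by
    intro c x hx v
    have := Fintype.ofFinite V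
    have hx' := hx v
    rw [finsum_eq_sum_of_fintype] at hx' ⊢
    have h : ∀ u, (if G.Adj v u then (c • x) u else 0) = c * (if G.Adj v u then x u else 0) := by
      intro u; by_cases h : G.Adj v u <;> simp [h]
    rw [Finset.sum_congr rfl (fun u _ => h u), ← Finset.mul_sum, hx', Pi.smul_apply, smul_eq_mul]
    ring

/-- `lam` is a main eigenvalue of `G` -/
def IsMain {V : Type} [Finite V] (G : SimpleGraph V) (lam : ℝ) : Prop :=
  ∃ x ∈ eigsp G lam, ∑ᶠ v, x v ≠ 0

/-- `X` is a `lam`-star set of `G` -/
def IsStar {V : Type} [Finite V] (G : SimpleGraph V) (lam : ℝ) (X : Finset V) : Prop :=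
  X.card = Module.finrank ℝ (eigsp G lam) ∧ eigsp (G.induce {v | v ∉ X}) lam = ⊥

open Classical in
/-- the set of `lam`-main vertices of `X` -/
noncomputable def mainSet {V : Type} [Finite V] (G : SimpleGraph V) (lam : ℝ) (X : Finset V) :
    Finset V :=
  X.filter fun v => IsMain (G.induce {w | w ∉ X ∨ w = v}) lam

/-- the maximum number of main vertices of a star set of a main eigenvalue of a connected graph
with `n` vertices -/
noncomputable def M (n : ℕ) : ℕ :=
  sSup {k | ∃ (V : Type) (_ : Finite V) (G : SimpleGraph V), Nat.card V = n ∧ G.Connected ∧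
    ∃ lam, IsMain G lam ∧ ∃ X, IsStar G lam X ∧ (mainSet G lam X).card = k}

section general

variable {V : Type} [Fintype V] {G : SimpleGraph V} {lam : ℝ}

open Classical in
theorem mem_eigsp {x : V → ℝ} :
    x ∈ eigsp G lam ↔ ∀ v, ∑ u, (if G.Adj v u then x u else 0) = lam * x v := by
  show (∀ v, ∑ᶠ u, (if G.Adj v u then x u else 0) = lam * x v) ↔ _
  simp only [finsum_eq_sum_of_fintype]

open Classical in
theorem sum_sub (S : Set V) (f : V → ℝ) (hf : ∀ v, v ∉ S → f v = 0) :
    ∑ u : S, f u = ∑ u, f u := by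
  rw [← Finset.sum_subtype (univ.filter fun u => u ∈ S) (by simp) f, Finset.sum_filter]
  refine Finset.sum_congr rfl fun u _ => ?_
  by_cases hu : u ∈ S
  · rw [if_pos hu]
  · rw [if_neg hu, hf u hu]

open Classical in
theorem fsum_sub (S : Set V) (f : V → ℝ) (hf : ∀ v, v ∉ S → f v = 0) :
    ∑ᶠ u : S, f u = ∑ u, f u := by
  rw [finsum_eq_sum_of_fintype]
  exact sum_sub S f hf

open Classical in
/-- eigenvectors of induced subgraphs, extended by zero -/
theorem mem_induce (S : Set V) (x : V → ℝ) (hx : ∀ v, v ∉ S → x v = 0) :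
    (fun v : S => x v) ∈ eigsp (G.induce S) lam
      ↔ ∀ v ∈ S, ∑ u, (if G.Adj v u then x u else 0) = lam * x v := by
  rw [mem_eigsp]
  have h : ∀ v : S, ∑ u : S, (@ite ℝ ((G.induce S).Adj v u) (Classical.propDecidable _) (x u) 0)
      = ∑ u, (if G.Adj v u then x u else 0) := by
    intro v
    rw [← sum_sub S (fun u => if G.Adj v u then x u else 0)]
    · refine Finset.sum_congr rfl fun u _ => ?_
      by_cases hu : (G.induce S).Adj v u
      · rw [if_pos hu, if_pos (show G.Adj v u from hu)]
      · rw [if_neg hu, if_neg (show ¬ G.Adj v u from hu)]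
    · intro u hu
      rw [hx u hu]; simp
  constructor
  · intro h1 v hv
    have := h1 ⟨v, hv⟩
    rw [h ⟨v, hv⟩] at this
    exact this
  · intro h1 v
    rw [h v]
    exact h1 v v.prop

open Classical in
/-- extension by zero of an eigenvector of an induced subgraph -/
theorem extend (S : Set V) (z : S → ℝ) (hz : z ∈ eigsp (G.induce S) lam) :
    ∃ x : V → ℝ, (∀ v, v ∉ S → x v = 0) ∧ (∀ v : S, x v = z v) ∧
      (∀ v ∈ S, ∑ u, (if G.Adj v u then x u else 0) = lam * x v) ∧ ∑ v, x v = ∑ᶠ v, z v := by
  set x : V → ℝ := fun v => if h : v ∈ S then z ⟨v, h⟩ else 0 with hx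
  have h1 : ∀ v, v ∉ S → x v = 0 := by
    intro v hv
    rw [hx]; simp only; rw [dif_neg hv]
  have h2 : ∀ v : S, x v = z v := by
    intro v
    rw [hx]; simp only; rw [dif_pos v.prop]
  have h3 : (fun v : S => x v) = z := funext h2
  refine ⟨x, h1, h2, ?_, ?_⟩
  · rw [← mem_induce S x h1, h3]
    exact hz
  · rw [← sum_sub S x h1, finsum_eq_sum_of_fintype]
    exact Finset.sum_congr rfl fun v _ => h2 v

open Classical in
/-- a vector vanishing on a star set and satisfying the equations off it is zero -/
theorem zero_of (X : Finset V) (hX : eigsp (G.induce {v | v ∉ X}) lam = ⊥) (x : V → ℝ)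
    (h0 : ∀ v ∈ X, x v = 0)
    (h : ∀ v, v ∉ X → ∑ u, (if G.Adj v u then x u else 0) = lam * x v) : x = 0 := by
  have h1 : (fun v : {v | v ∉ X} => x v) ∈ eigsp (G.induce {v | v ∉ X}) lam := by
    rw [mem_induce {v | v ∉ X} x]
    · exact h
    · intro v hv
      apply h0
      by_contra hvX
      exact hv hvX
  rw [hX, Submodule.mem_bot] at h1
  funext v
  by_cases hv : v ∈ X
  · exact h0 v hv
  · exact congrFun h1 ⟨v, hv⟩

open Classical in
theorem eigsp_eq {x : V → ℝ} (hx : x ∈ eigsp G lam) (v : V) :
    ∑ u, (if G.Adj v u then x u else 0) = lam * x v := mem_eigsp.1 hx v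

open Classical in
/-- the eigenvector attached to a vertex of a star set -/
theorem exists_vec (X : Finset V) (hX : IsStar G lam X) (v : V) (hv : v ∈ X) :
    ∃ x ∈ eigsp G lam, x v = 1 ∧ ∀ w ∈ X, w ≠ v → x w = 0 := by
  -- restriction to `X` is injective, hence bijective
  let r : eigsp G lam →ₗ[ℝ] (X → ℝ) :=
    { toFun := fun x w => (x : V → ℝ) w
      map_add' := fun _ _ => rfl
      map_smul' := fun _ _ => rfl }
  have hinj : Function.Injective r := by
    rw [← LinearMap.ker_eq_bot, LinearMap.ker_eq_bot']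
    intro x hx
    apply Subtype.ext
    apply zero_of X hX.2
    · intro w hw
      exact congrFun hx ⟨w, hw⟩
    · intro w _
      exact eigsp_eq x.prop w
  have hdim : Module.finrank ℝ (eigsp G lam) = Module.finrank ℝ (X → ℝ) := by
    rw [Module.finrank_fintype_fun_eq_card, Fintype.card_coe, hX.1]
  have hsurj : Function.Surjective r :=
    (LinearMap.injective_iff_surjective_of_finrank_eq_finrank hdim).1 hinj
  obtain ⟨x, hx⟩ := hsurj (fun w => if w = ⟨v, hv⟩ then 1 else 0)
  refine ⟨x, x.prop, ?_, ?_⟩
  · have := congrFun hx ⟨v, hv⟩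
    rw [if_pos rfl] at this
    exact this
  · intro w hw hwv
    have := congrFun hx ⟨w, hw⟩
    rw [if_neg (fun h => hwv (congrArg Subtype.val h))] at this
    exact this

open Classical in
theorem exists_main_vec (X : Finset V) (hX : IsStar G lam X) (v : V) (hv : v ∈ mainSet G lam X) :
    ∃ x ∈ eigsp G lam, x v = 1 ∧ (∀ w ∈ X, w ≠ v → x w = 0) ∧ ∑ w, x w ≠ 0 := by
  obtain ⟨hvX, z, hz, hsum⟩ := Finset.mem_filter.1 hv
  obtain ⟨x, hx, hx1, hx2⟩ := exists_vec X hX v hvX
  refine ⟨x, hx, hx1, hx2, ?_⟩
  obtain ⟨y, hy1, hy2, hy3, hy4⟩ := extend _ z hz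
  have h : y - y v • x = 0 := by
    apply zero_of X hX.2
    · intro w hw
      by_cases hwv : w = v
      · subst hwv
        simp [hx1]
      · have : y w = 0 := hy1 w (by
          rintro (h | h)
          · exact h hw
          · exact hwv h)
        simp [this, hx2 w hw hwv]
    · intro w hw
      have e1 := hy3 w (Or.inl hw)
      have e2 := eigsp_eq hx w
      have e3 : ∀ u, (if G.Adj w u then (y - y v • x) u else 0)
          = (if G.Adj w u then y u else 0) - y v * (if G.Adj w u then x u else 0) := by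
        intro u; by_cases h : G.Adj w u <;> simp [h]
      rw [Finset.sum_congr rfl (fun u _ => e3 u), Finset.sum_sub_distrib, ← Finset.mul_sum, e1, e2]
      simp only [Pi.sub_apply, Pi.smul_apply, smul_eq_mul]
      ring
  intro h0
  apply hsum
  rw [← hy4]
  have h2 : y = y v • x := sub_eq_zero.1 h
  have h3 : ∑ w, y w = y v * ∑ w, x w := by
    rw [Finset.mul_sum]
    refine Finset.sum_congr rfl fun w _ => ?_
    conv_lhs => rw [h2]
    rfl
  rw [h3, h0, mul_zero]

/-! ### The upper bound -/

theorem closed (hG : G.Connected) (S : Set V) (u : V) (hu : u ∈ S)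
    (h : ∀ w ∈ S, ∀ z, G.Adj w z → z ∈ S) (z : V) : z ∈ S := by
  obtain ⟨p⟩ := hG.preconnected u z
  induction p with
  | nil => exact hu
  | cons hadj _ ih => exact ih (h _ hu _ hadj)

open Classical in
/-- the entries of the adjacency matrix -/
noncomputable def A (G : SimpleGraph V) (w z : V) : ℝ := if G.Adj w z then 1 else 0

theorem A_01 (w z : V) : A G w z = 0 ∨ A G w z = 1 := by
  unfold A; by_cases h : G.Adj w z <;> simp [h]

theorem A_symm (w z : V) : A G w z = A G z w := by
  unfold A
  by_cases h : G.Adj w z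
  · rw [if_pos h, if_pos h.symm]
  · rw [if_neg h, if_neg (fun h' => h h'.symm)]

theorem A_self (w : V) : A G w w = 0 := by simp [A]

theorem A_zero {w z : V} (h : A G w z = 0) : ¬ G.Adj w z := by
  intro h'
  simp [A, h'] at h

open Classical in
theorem sum_support (x : V → ℝ) (T : Finset V) (hT : ∀ z, z ∉ T → x z = 0) (w : V) :
    ∑ u, (if G.Adj w u then x u else 0) = ∑ z ∈ T, A G w z * x z := by
  rw [← Finset.sum_subset (Finset.subset_univ T)]
  · refine Finset.sum_congr rfl fun z _ => ?_
    unfold A
    by_cases h : G.Adj w z <;> simp [h]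
  · intro z _ hz
    rw [hT z hz]; simp

open Classical in
/-- a vertex of the star set without neighbours outside is isolated -/
theorem no_isolated (hG : G.Connected) (X : Finset V) (hX : eigsp (G.induce {v | v ∉ X}) lam = ⊥)
    (u v : V) (hu : u ∈ X) (huv : u ≠ v) (x : V → ℝ) (hx : x ∈ eigsp G lam) (hxu : x u = 1)
    (hx0 : ∀ w ∈ X, w ≠ u → x w = 0) (h : ∀ w, w ∉ X → ¬ G.Adj w u) : False := by
  have h1 : x - Pi.single u 1 = 0 := by
    apply zero_of X hX
    · intro w hw
      by_cases hwu : w = u
      · subst hwu; simp [hxu]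
      · simp [hx0 w hw hwu, hwu]
    · intro w hw
      have hwu : w ≠ u := fun e => hw (e ▸ hu)
      have e1 : ∀ z, (if G.Adj w z then (x - (Pi.single u (1 : ℝ) : V → ℝ)) z else 0)
          = (if G.Adj w z then x z else 0) := by
        intro z
        by_cases hz : G.Adj w z
        · have hzu : z ≠ u := fun e => h w hw (e ▸ hz)
          simp [hz, hzu]
        · simp [hz]
      rw [Finset.sum_congr rfl (fun z _ => e1 z), eigsp_eq hx w]
      simp [hwu]
  have h2 : x = Pi.single u 1 := sub_eq_zero.1 h1
  have h3 : ∀ w, w ≠ u → ¬ G.Adj w u := by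
    intro w hw hadj
    have h4 := eigsp_eq hx w
    rw [h2, sum_support (Pi.single u 1) {u} (by intro z hz; simp at hz; simp [hz])] at h4
    simp [hw, A, hadj] at h4
  have h5 := closed hG {u} u rfl (by
    intro w hw z hz
    rw [Set.mem_singleton_iff] at hw
    subst hw
    exact absurd hz.symm (h3 z hz.ne.symm)) v
  exact huv (Set.mem_singleton_iff.1 h5).symm

open Classical in
/-- the case of an edgeless star complement and `lam = 1` -/
theorem finish (hG : G.Connected) (X : Finset V) (u v : V) (hu : u ∈ X) (hv : v ∈ X) (huv : u ≠ v)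
    (x : V → ℝ) (hx : x ∈ eigsp G lam) (hxu : x u = 1) (hx0 : ∀ w ∈ X, w ≠ u → x w = 0)
    (hC : ∀ w, w ∉ X → ∀ z, z ∉ X → ¬ G.Adj w z) (hl : lam = 1) : False := by
  subst hl
  -- values outside `X`
  have h1 : ∀ w, w ∉ X → x w = A G w u := by
    intro w hw
    have h2 := eigsp_eq hx w
    rw [one_mul] at h2
    rw [← h2, Finset.sum_eq_single u]
    · rw [hxu]; rfl
    · intro z _ hzu
      by_cases hz : G.Adj w z
      · rw [if_pos hz]
        apply hx0 z _ hzu
        by_contra hzX
        exact hC w hw z hzX hz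
      · rw [if_neg hz]
    · intro h; exact absurd (mem_univ _) h
  have hnn : ∀ w, 0 ≤ x w := by
    intro w
    by_cases hw : w ∈ X
    · by_cases hwu : w = u
      · rw [hwu, hxu]; norm_num
      · rw [hx0 w hw hwu]
    · rw [h1 w hw]
      rcases A_01 (G := G) w u with h | h <;> rw [h] <;> norm_num
  have h3 : ∀ z ∈ X, z ≠ u → ∀ t, G.Adj z t → x t = 0 := by
    intro z hz hzu t ht
    have h4 := eigsp_eq hx z
    rw [hx0 z hz hzu, mul_zero, Finset.sum_eq_zero_iff_of_nonneg] at h4
    · have := h4 t (mem_univ _)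
      rwa [if_pos ht] at this
    · intro s _
      by_cases hs : G.Adj z s
      · rw [if_pos hs]; exact hnn s
      · rw [if_neg hs]
  have h5 := closed hG {t | x t ≠ 0} u (by show x u ≠ 0; rw [hxu]; norm_num) (by
    intro t ht z hz
    show x z ≠ 0
    intro hxz
    have ht' : x t ≠ 0 := ht
    by_cases hzX : z ∈ X
    · by_cases hzu : z = u
      · rw [hzu, hxu] at hxz; norm_num at hxz
      · exact ht' (h3 z hzX hzu t hz.symm)
    · by_cases htX : t ∈ X
      · by_cases htu : t = u
        · subst htu
          rw [h1 z hzX] at hxz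
          exact A_zero hxz hz.symm
        · exact ht' (hx0 t htX htu)
      · exact hC t htX z hzX hz) v
  exact h5 (hx0 v hv (Ne.symm huv))

open Classical in
theorem pair (hG : G.Connected) (X : Finset V) (hX : eigsp (G.induce {v | v ∉ X}) lam = ⊥)
    (hcard : Xᶜ.card ≤ 3) (u v : V) (hu : u ∈ X) (hv : v ∈ X) (huv : u ≠ v)
    (x : V → ℝ) (hx : x ∈ eigsp G lam) (hxu : x u = 1) (hx0 : ∀ w ∈ X, w ≠ u → x w = 0)
    (hxs : ∑ w, x w ≠ 0)
    (y : V → ℝ) (hy : y ∈ eigsp G lam) (hyv : y v = 1) (hy0 : ∀ w ∈ X, w ≠ v → y w = 0)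
    (hys : ∑ w, y w ≠ 0) : False := by
  have hxv : x v = 0 := hx0 v hv (Ne.symm huv)
  have hyu : y u = 0 := hy0 u hu huv
  have hxsup : ∀ z, z ∉ insert u Xᶜ → x z = 0 := by
    intro z hz
    rw [mem_insert, mem_compl, not_or, not_not] at hz
    exact hx0 z hz.2 hz.1
  have hysup : ∀ z, z ∉ insert v Xᶜ → y z = 0 := by
    intro z hz
    rw [mem_insert, mem_compl, not_or, not_not] at hz
    exact hy0 z hz.2 hz.1
  have hunot : u ∉ Xᶜ := by rw [mem_compl, not_not]; exact hu
  have hvnot : v ∉ Xᶜ := by rw [mem_compl, not_not]; exact hv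
  have ex : ∀ w, A G w u + ∑ z ∈ Xᶜ, A G w z * x z = lam * x w := by
    intro w
    have h := eigsp_eq hx w
    rw [sum_support x _ hxsup w, sum_insert hunot, hxu, mul_one] at h
    exact h
  have ey : ∀ w, A G w v + ∑ z ∈ Xᶜ, A G w z * y z = lam * y w := by
    intro w
    have h := eigsp_eq hy w
    rw [sum_support y _ hysup w, sum_insert hvnot, hyv, mul_one] at h
    exact h
  have sx : ∑ w, x w = 1 + ∑ z ∈ Xᶜ, x z := by
    rw [← Finset.sum_subset (Finset.subset_univ (insert u Xᶜ)) (fun z _ hz => hxsup z hz),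
      sum_insert hunot, hxu]
  have sy : ∑ w, y w = 1 + ∑ z ∈ Xᶜ, y z := by
    rw [← Finset.sum_subset (Finset.subset_univ (insert v Xᶜ)) (fun z _ hz => hysup z hz),
      sum_insert hvnot, hyv]
  rw [sx] at hxs
  rw [sy] at hys
  -- no kernel vector on the complement
  have hker : ∀ z : V → ℝ, (∀ w ∈ X, z w = 0) →
      (∀ w, w ∉ X → ∑ t ∈ Xᶜ, A G w t * z t = lam * z w) → z = 0 := by
    intro z hz1 hz2
    apply zero_of X hX z hz1
    intro w hw
    rw [sum_support z Xᶜ (by
      intro t ht
      rw [mem_compl, not_not] at ht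
      exact hz1 t ht) w]
    exact hz2 w hw
  have hnu : ∃ w, w ∉ X ∧ G.Adj w u := by
    by_contra h
    push Not at h
    exact no_isolated hG X hX u v hu huv x hx hxu hx0 h
  have hnv : ∃ w, w ∉ X ∧ G.Adj w v := by
    by_contra h
    push Not at h
    exact no_isolated hG X hX v u hv (Ne.symm huv) y hy hyv hy0 h
  have hfin : (∀ w, w ∉ X → ∀ z, z ∉ X → ¬ G.Adj w z) → lam = 1 → False :=
    fun h1 h2 => finish hG X u v hu hv huv x hx hxu hx0 h1 h2
  clear hxsup hysup hx0 hy0 sx sy hX hx hy
  have hpos : ∀ w z, 0 ≤ A G w z := by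
    intro w z
    rcases A_01 (G := G) w z with h | h <;> rw [h] <;> norm_num
  interval_cases hc : Xᶜ.card
  · -- no vertex outside
    obtain ⟨w, hw, _⟩ := hnu
    rw [card_eq_zero] at hc
    have : w ∈ Xᶜ := mem_compl.2 hw
    rw [hc] at this
    exact absurd this (notMem_empty w)
  · obtain ⟨a, ha⟩ := card_eq_one.1 hc
    rw [ha] at ex ey hxs hys hker
    simp only [sum_singleton] at ex ey hxs hys hker
    have haX : a ∉ X := by rw [← mem_compl, ha]; simp
    have hall : ∀ w, w ∉ X → w = a := by
      intro w hw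
      have : w ∈ Xᶜ := mem_compl.2 hw
      rw [ha] at this
      exact mem_singleton.1 this
    have D : lam ≠ 0 := by
      intro h0
      have h1 := hker (Pi.single a 1) (by
        intro w hw
        have : w ≠ a := fun e => haX (e ▸ hw)
        simp [this]) (by
        intro w hw
        rw [hall w hw, h0, A_self])
      have := congrFun h1 a
      simp at this
    have x1 := ex a
    have x2 := ex u
    have x3 := ex v
    have y1 := ey a
    have y2 := ey u
    have y3 := ey v
    rw [A_self] at x1 y1 x2 y3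
    rw [hxu] at x2
    rw [hxv] at x3
    rw [hyu] at y2
    rw [hyv] at y3
    rw [A_symm a u] at x1
    rw [A_symm a v] at y1
    rw [A_symm v u] at x3
    exact R2.StarCore.core1 lam (A G u a) (A G v a) (x a) (y a) (A G u v) (A_01 _ _) (A_01 _ _)
      (A_01 _ _) D (by linarith) (by linarith) (by linarith) (by linarith) (by linarith)
      (by linarith) hxs hys
  · obtain ⟨a, b, hab, hX2⟩ := card_eq_two.1 hc
    rw [hX2] at ex ey hxs hys hker
    simp only [sum_pair hab] at ex ey hxs hys hker
    have haX : a ∉ X := by rw [← mem_compl, hX2]; simp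
    have hbX : b ∉ X := by rw [← mem_compl, hX2]; simp
    have hall : ∀ w, w ∉ X → w = a ∨ w = b := by
      intro w hw
      have : w ∈ Xᶜ := mem_compl.2 hw
      rw [hX2] at this
      simpa using this
    have D : lam ^ 2 - (A G a b) ^ 2 ≠ 0 := by
      intro h0
      have hdet : (!![lam, -A G a b; -A G a b, lam] : Matrix (Fin 2) (Fin 2) ℝ).det = 0 := by
        rw [Matrix.det_fin_two_of]; linear_combination h0
      obtain ⟨k, hk, hk2⟩ := Matrix.exists_mulVec_eq_zero_iff.2 hdet
      have e0 := congrFun hk2 0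
      have e1 := congrFun hk2 1
      simp [Matrix.mulVec, dotProduct, Fin.sum_univ_two] at e0 e1
      have h1 := hker (fun w => if w = a then k 0 else if w = b then k 1 else 0) (by
        intro w hw
        have h2 : w ≠ a := fun e => haX (e ▸ hw)
        have h3 : w ≠ b := fun e => hbX (e ▸ hw)
        simp [h2, h3]) (by
        intro w hw
        rcases hall w hw with rfl | rfl
        · simp only [if_true, if_neg (Ne.symm hab), A_self]
          linarith
        · simp only [if_true, if_neg (Ne.symm hab), A_self]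
          rw [A_symm w a]
          linarith)
      apply hk
      funext i
      fin_cases i
      · have := congrFun h1 a
        simpa using this
      · have := congrFun h1 b
        simpa [Ne.symm hab] using this
    have x1 := ex a
    have x1' := ex b
    have x2 := ex u
    have x3 := ex v
    have y1 := ey a
    have y1' := ey b
    have y2 := ey u
    have y3 := ey v
    rw [A_self, A_symm a u] at x1
    rw [A_self, A_symm b u, A_symm b a] at x1'
    rw [A_self, A_symm a v] at y1
    rw [A_self, A_symm b v, A_symm b a] at y1'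
    rw [A_self, hxu] at x2
    rw [A_self, hyv] at y3
    rw [hxv, A_symm v u] at x3
    rw [hyu] at y2
    have hu0 : A G u a + A G u b ≠ 0 := by
      obtain ⟨w, hw, hadj⟩ := hnu
      have h1 : A G u w = 1 := by unfold A; rw [if_pos hadj.symm]
      rcases hall w hw with rfl | rfl
      · have := hpos u b; linarith
      · have := hpos u a; linarith
    have hv0 : A G v a + A G v b ≠ 0 := by
      obtain ⟨w, hw, hadj⟩ := hnv
      have h1 : A G v w = 1 := by unfold A; rw [if_pos hadj.symm]
      rcases hall w hw with rfl | rfl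
      · have := hpos v b; linarith
      · have := hpos v a; linarith
    obtain ⟨r1, r2, r3⟩ := R2.StarCore.core2 lam (A G a b) (A G u a) (A G u b) (A G v a) (A G v b)
      (x a) (x b) (y a) (y b) (A G u v) (A_01 _ _) (A_01 _ _) (A_01 _ _) (A_01 _ _) (A_01 _ _)
      (A_01 _ _) D (by linarith) (by linarith) (by linarith) (by linarith) (by linarith)
      (by linarith) (by linarith) (by linarith) hu0 hv0 (by rwa [← add_assoc] at hxs)
      (by rwa [← add_assoc] at hys)
    refine hfin ?_ r2
    intro w hw z hz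
    rcases hall w hw with rfl | rfl <;> rcases hall z hz with rfl | rfl
    · exact fun h => h.ne rfl
    · exact A_zero r1
    · exact fun h => A_zero r1 h.symm
    · exact fun h => h.ne rfl
  · obtain ⟨a, b, c, hab, hac, hbc, hX3⟩ := card_eq_three.1 hc
    have hexp : ∀ f : V → ℝ, ∑ z ∈ Xᶜ, f z = f a + f b + f c := by
      intro f
      rw [hX3, sum_insert (by simp [hab, hac]), sum_pair hbc, add_assoc]
    simp only [hexp] at ex ey hxs hys hker
    have haX : a ∉ X := by rw [← mem_compl, hX3]; simp
    have hbX : b ∉ X := by rw [← mem_compl, hX3]; simp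
    have hcX : c ∉ X := by rw [← mem_compl, hX3]; simp
    have hall : ∀ w, w ∉ X → w = a ∨ w = b ∨ w = c := by
      intro w hw
      have : w ∈ Xᶜ := mem_compl.2 hw
      rw [hX3] at this
      simpa using this
    have D : lam ^ 3 - ((A G a b) ^ 2 + (A G b c) ^ 2 + (A G a c) ^ 2) * lam
        - 2 * A G a b * A G b c * A G a c ≠ 0 := by
      intro h0
      have hdet : (!![lam, -A G a b, -A G a c; -A G a b, lam, -A G b c; -A G a c, -A G b c, lam] :
          Matrix (Fin 3) (Fin 3) ℝ).det = 0 := by
        rw [Matrix.det_fin_three]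
        simp
        linear_combination h0
      obtain ⟨k, hk, hk2⟩ := Matrix.exists_mulVec_eq_zero_iff.2 hdet
      have e0 := congrFun hk2 0
      have e1 := congrFun hk2 1
      have e2 := congrFun hk2 2
      simp [Matrix.mulVec, dotProduct, Fin.sum_univ_three] at e0 e1 e2
      have h1 := hker (fun w => if w = a then k 0 else if w = b then k 1 else
          if w = c then k 2 else 0) (by
        intro w hw
        have h2 : w ≠ a := fun e => haX (e ▸ hw)
        have h3 : w ≠ b := fun e => hbX (e ▸ hw)
        have h4 : w ≠ c := fun e => hcX (e ▸ hw)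
        simp [h2, h3, h4]) (by
        intro w hw
        rcases hall w hw with rfl | rfl | rfl
        · simp only [if_true, if_neg (Ne.symm hab), if_neg (Ne.symm hac), if_neg (Ne.symm hbc),
            A_self]
          linarith
        · simp only [if_true, if_neg (Ne.symm hab), if_neg (Ne.symm hac), if_neg (Ne.symm hbc),
            A_self]
          rw [A_symm w a]
          linarith
        · simp only [if_true, if_neg (Ne.symm hab), if_neg (Ne.symm hac), if_neg (Ne.symm hbc),
            A_self]
          rw [A_symm w a, A_symm w b]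
          linarith)
      apply hk
      funext i
      fin_cases i
      · have := congrFun h1 a
        simpa using this
      · have := congrFun h1 b
        simpa [Ne.symm hab] using this
      · have := congrFun h1 c
        simpa [Ne.symm hac, Ne.symm hbc] using this
    have x1 := ex a
    have x1' := ex b
    have x1'' := ex c
    have x2 := ex u
    have x3 := ex v
    have y1 := ey a
    have y1' := ey b
    have y1'' := ey c
    have y2 := ey u
    have y3 := ey v
    rw [A_self, A_symm a u] at x1
    rw [A_self, A_symm b u, A_symm b a] at x1'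
    rw [A_self, A_symm c u, A_symm c a, A_symm c b] at x1''
    rw [A_self, A_symm a v] at y1
    rw [A_self, A_symm b v, A_symm b a] at y1'
    rw [A_self, A_symm c v, A_symm c a, A_symm c b] at y1''
    rw [A_self, hxu] at x2
    rw [A_self, hyv] at y3
    rw [hxv, A_symm v u] at x3
    rw [hyu] at y2
    have hu0 : A G u a + A G u b + A G u c ≠ 0 := by
      obtain ⟨w, hw, hadj⟩ := hnu
      have h1 : A G u w = 1 := by unfold A; rw [if_pos hadj.symm]
      have g1 := hpos u a
      have g2 := hpos u b
      have g3 := hpos u c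
      rcases hall w hw with rfl | rfl | rfl <;> linarith
    have hv0 : A G v a + A G v b + A G v c ≠ 0 := by
      obtain ⟨w, hw, hadj⟩ := hnv
      have h1 : A G v w = 1 := by unfold A; rw [if_pos hadj.symm]
      have g1 := hpos v a
      have g2 := hpos v b
      have g3 := hpos v c
      rcases hall w hw with rfl | rfl | rfl <;> linarith
    obtain ⟨r1, r2, r3, r4, r5⟩ := R2.StarCore.core3' lam (A G a b) (A G b c) (A G a c)
      (A G u a) (A G u b) (A G u c) (A G v a) (A G v b) (A G v c)
      (x a) (x b) (x c) (y a) (y b) (y c) (A G u v) (A_01 _ _) (A_01 _ _) (A_01 _ _) (A_01 _ _)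
      (A_01 _ _) (A_01 _ _) (A_01 _ _) (A_01 _ _) (A_01 _ _) (A_01 _ _) D (by linarith)
      (by linarith) (by linarith) (by linarith) (by linarith) (by linarith) (by linarith)
      (by linarith) (by linarith) (by linarith) hu0 hv0
      (fun h => hxs (by linarith)) (fun h => hys (by linarith))
    refine hfin ?_ r4
    intro w hw z hz
    rcases hall w hw with rfl | rfl | rfl <;> rcases hall z hz with rfl | rfl | rfl
    · exact fun h => h.ne rfl
    · exact A_zero r1
    · exact A_zero r3
    · exact fun h => A_zero r1 h.symm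
    · exact fun h => h.ne rfl
    · exact A_zero r2
    · exact fun h => A_zero r3 h.symm
    · exact fun h => A_zero r2 h.symm
    · exact fun h => h.ne rfl

open Classical in
theorem upper (hG : G.Connected) (X : Finset V) (hX : IsStar G lam X) :
    (mainSet G lam X).card ≤ max 1 (Fintype.card V - 4) := by
  have h1 : (mainSet G lam X).card ≤ X.card := Finset.card_filter_le _ _
  have h2 := Finset.card_add_card_compl X
  by_cases h3 : 4 ≤ Xᶜ.card
  · apply le_max_of_le_right
    omega
  · apply le_max_of_le_left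
    by_contra h4
    push Not at h4
    obtain ⟨u, hu, v, hv, huv⟩ := Finset.one_lt_card.1 h4
    obtain ⟨x, hx, hx1, hx2, hx3⟩ := exists_main_vec X hX u hu
    obtain ⟨y, hy, hy1, hy2, hy3⟩ := exists_main_vec X hX v hv
    exact pair hG X hX.2 (by omega) u v (Finset.mem_filter.1 hu).1 (Finset.mem_filter.1 hv).1 huv
      x hx hx1 hx2 hx3 y hy hy1 hy2 hy3

end general

/-! ### Complete graphs -/

open Classical in
theorem top_sum (m : ℕ) (G : SimpleGraph (Fin (m + 1))) (hG : G = ⊤) (x : Fin (m + 1) → ℝ)
    (v : Fin (m + 1)) :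
    ∑ u, (if G.Adj v u then x u else 0) = ∑ u, x u - x v := by
  have h : ∀ u, (if G.Adj v u then x u else 0)
      = x u - (if u = v then x u else 0) := by
    intro u
    by_cases h : u = v
    · subst h; simp
    · have : G.Adj v u := by rw [hG]; exact (SimpleGraph.top_adj v u).2 (Ne.symm h)
      rw [if_pos this, if_neg h, sub_zero]
  rw [Finset.sum_congr rfl (fun u _ => h u), Finset.sum_sub_distrib, Finset.sum_ite_eq' univ v x,
    if_pos (mem_univ v)]

open Classical in
theorem top_compl (m : ℕ) :
    eigsp ((⊤ : SimpleGraph (Fin (m + 1))).induce {v | v ∉ ({0} : Finset (Fin (m + 1)))}) m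
      = ⊥ := by
  rw [Submodule.eq_bot_iff]
  intro z hz
  obtain ⟨x, h1, h2, h3, h4⟩ := extend _ z hz
  have h0 : x 0 = 0 := h1 0 (by simp)
  have h5 : ∀ v, v ≠ 0 → ∑ u, x u = (m + 1) * x v := by
    intro v hv
    have := (h3 v (by simpa using hv)).symm.trans (top_sum m _ rfl x v)
    linarith
  have h6 : ((m : ℝ) + 1) * ∑ u, x u = m * ∑ u, x u := by
    rw [Fin.sum_univ_succ, h0, zero_add, mul_sum]
    have : ∀ i : Fin m, ((m : ℝ) + 1) * x i.succ = ∑ u, x u := fun i =>
      (h5 i.succ (Fin.succ_ne_zero i)).symm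
    rw [Finset.sum_congr rfl (fun i _ => this i)]
    rw [Fin.sum_univ_succ, h0, zero_add]
    simp
  have h7 : ∑ u, x u = 0 := by linarith
  funext v
  rw [← h2 v]
  have hv : (v : Fin (m + 1)) ≠ 0 := by simpa using v.prop
  have := h5 v hv
  rw [h7] at this
  have hm : ((m : ℝ) + 1) ≠ 0 := by positivity
  rcases mul_eq_zero.1 this.symm with h | h
  · exact absurd h hm
  · exact h

theorem top_one (m : ℕ) : (fun _ => 1 : Fin (m + 1) → ℝ) ∈
    eigsp (⊤ : SimpleGraph (Fin (m + 1))) m := by
  rw [mem_eigsp]
  intro v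
  refine (top_sum m _ rfl (fun _ => 1) v).trans ?_
  simp only [sum_const, card_univ, Fintype.card_fin, nsmul_eq_mul]
  push_cast
  ring

open Classical in
theorem lower_one (m : ℕ) : ∃ (V : Type) (_ : Finite V) (G : SimpleGraph V),
    Nat.card V = m + 1 ∧ G.Connected ∧
    ∃ lam, IsMain G lam ∧ ∃ X, IsStar G lam X ∧ (mainSet G lam X).card = 1 := by
  refine ⟨Fin (m + 1), inferInstance, ⊤, by simp, SimpleGraph.connected_top, m,
    ⟨_, top_one m, ?_⟩, {0}, ⟨?_, top_compl m⟩, ?_⟩
  · rw [finsum_eq_sum_of_fintype]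
    simp only [sum_const, card_univ, Fintype.card_fin, nsmul_eq_mul, mul_one]
    positivity
  · rw [card_singleton]
    symm
    rw [finrank_eq_one_iff_of_nonzero' ⟨_, top_one m⟩]
    · intro w
      refine ⟨w.val 0, ?_⟩
      apply Subtype.ext
      funext v
      have h1 := (eigsp_eq w.prop 0).symm.trans (top_sum m _ rfl w.val 0)
      have h2 := (eigsp_eq w.prop v).symm.trans (top_sum m _ rfl w.val v)
      have h3 : ((m : ℝ) + 1) * w.val 0 = (m + 1) * w.val v := by linarith
      have hm : ((m : ℝ) + 1) ≠ 0 := by positivity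
      have h4 := mul_left_cancel₀ hm h3
      simpa using h4
    · intro h
      have := congrFun (congrArg Subtype.val h) 0
      simp at this
  · have h1 : mainSet (⊤ : SimpleGraph (Fin (m + 1))) m {0} = {0} := by
      apply Finset.filter_true_of_mem
      intro v hv
      rw [mem_singleton] at hv
      subst hv
      have hall : ∀ w : Fin (m + 1), w ∈ {w | w ∉ ({0} : Finset (Fin (m + 1))) ∨ w = 0} := by
        intro w
        by_cases hw : w = 0
        · right; exact hw
        · left; simpa using hw
      refine ⟨fun _ => 1, ?_, ?_⟩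
      · exact (mem_induce {w | w ∉ ({0} : Finset (Fin (m + 1))) ∨ w = 0} (fun _ => 1)
          (fun v hv => absurd (hall v) hv)).2 (fun v _ => eigsp_eq (top_one m) v)
      · intro h
        have h2 := fsum_sub {w | w ∉ ({0} : Finset (Fin (m + 1))) ∨ w = 0} (fun _ => (1 : ℝ))
          (fun v hv => absurd (hall v) hv)
        have h3 := h2.symm.trans h
        simp only [sum_const, card_univ, Fintype.card_fin, nsmul_eq_mul, mul_one] at h3
        have h4 : (0 : ℝ) < ((m + 1 : ℕ) : ℝ) := by positivity
        linarith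
    rw [h1, card_singleton]

/-! ### Brooms -/

/-- a path on four vertices with `k` further leaves attached to one of its ends -/
def broom (k : ℕ) : SimpleGraph (Fin 4 ⊕ Fin k) where
  Adj
    | Sum.inl i, Sum.inl j => i.val + 1 = j.val ∨ j.val + 1 = i.val
    | Sum.inl i, Sum.inr _ => i = 0
    | Sum.inr _, Sum.inl j => j = 0
    | Sum.inr _, Sum.inr _ => False
  symm := ⟨by
    rintro (x | x) (y | y) h
    · exact h.symm
    · exact h
    · exact h
    · exact h⟩
  loopless := ⟨by
    rintro (x | x) h
    · rcases h with h | h <;> omega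
    · exact h⟩

open Classical in
/-- the neighbour sums in the broom -/
theorem broom_sum (k : ℕ) (x : Fin 4 ⊕ Fin k → ℝ) :
    (∑ u, (if (broom k).Adj (Sum.inl 0) u then x u else 0)
        = x (Sum.inl 1) + ∑ i, x (Sum.inr i)) ∧
    (∑ u, (if (broom k).Adj (Sum.inl 1) u then x u else 0) = x (Sum.inl 0) + x (Sum.inl 2)) ∧
    (∑ u, (if (broom k).Adj (Sum.inl 2) u then x u else 0) = x (Sum.inl 1) + x (Sum.inl 3)) ∧
    (∑ u, (if (broom k).Adj (Sum.inl 3) u then x u else 0) = x (Sum.inl 2)) ∧
    ∀ i, (∑ u, (if (broom k).Adj (Sum.inr i) u then x u else 0) = x (Sum.inl 0)) := by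
  refine ⟨?_, ?_, ?_, ?_, ?_⟩
  · rw [Fintype.sum_sum_type, Fin.sum_univ_four]; simp [broom]
  · rw [Fintype.sum_sum_type, Fin.sum_univ_four]; simp [broom]
  · rw [Fintype.sum_sum_type, Fin.sum_univ_four]; simp [broom]
  · rw [Fintype.sum_sum_type, Fin.sum_univ_four]; simp [broom]
  · intro i
    rw [Fintype.sum_sum_type, Fin.sum_univ_four]; simp [broom]

open Classical in
theorem broom_eq (k : ℕ) (x : Fin 4 ⊕ Fin k → ℝ) (h0 : x (Sum.inl 0) = 0)
    (h1 : x (Sum.inl 1) = -∑ i, x (Sum.inr i)) (h2 : x (Sum.inl 2) = 0)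
    (h3 : x (Sum.inl 3) = ∑ i, x (Sum.inr i)) : x ∈ eigsp (broom k) 0 := by
  obtain ⟨s0, s1, s2, s3, s4⟩ := broom_sum k x
  rw [mem_eigsp]
  rintro (v | v)
  · rw [zero_mul]
    fin_cases v
    · exact s0.trans (by rw [h1]; ring)
    · exact s1.trans (by rw [h0, h2]; ring)
    · exact s2.trans (by rw [h1, h3]; ring)
    · exact s3.trans h2
  · rw [zero_mul, s4 v, h0]

/-- the star set of the broom -/
noncomputable def leaves (k : ℕ) : Finset (Fin 4 ⊕ Fin k) :=
  univ.map ⟨Sum.inr, Sum.inr_injective⟩

theorem mem_leaves (k : ℕ) (v : Fin 4 ⊕ Fin k) : v ∈ leaves k ↔ ∃ i, v = Sum.inr i := by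
  simp only [leaves, mem_map, mem_univ, true_and, Function.Embedding.coeFn_mk]
  exact ⟨fun ⟨i, hi⟩ => ⟨i, hi.symm⟩, fun ⟨i, hi⟩ => ⟨i, hi.symm⟩⟩

open Classical in
theorem broom_compl (k : ℕ) :
    eigsp ((broom k).induce {v | v ∉ leaves k}) 0 = ⊥ := by
  rw [Submodule.eq_bot_iff]
  intro z hz
  obtain ⟨x, h1, h2, h3, h4⟩ := extend _ z hz
  have hr : ∀ i, x (Sum.inr i) = 0 := fun i => h1 _ (by
    intro h
    exact h ((mem_leaves k _).2 ⟨i, rfl⟩))
  have hl : ∀ j : Fin 4, (Sum.inl j : Fin 4 ⊕ Fin k) ∈ {v | v ∉ leaves k} := by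
    intro j h
    obtain ⟨i, hi⟩ := (mem_leaves k _).1 h
    exact absurd hi (by simp)
  obtain ⟨s0, s1, s2, s3, s4⟩ := broom_sum k x
  have e0 := h3 _ (hl 0)
  have e1 := h3 _ (hl 1)
  have e2 := h3 _ (hl 2)
  have e3 := h3 _ (hl 3)
  rw [s0] at e0
  rw [s1] at e1
  rw [s2] at e2
  rw [s3] at e3
  simp only [hr, sum_const_zero, zero_mul, add_zero] at e0 e1 e2 e3
  have hx : ∀ v, x v = 0 := by
    rintro (v | v)
    · fin_cases v
      · show x (Sum.inl 0) = 0
        linarith
      · exact e0
      · exact e3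
      · show x (Sum.inl 3) = 0
        linarith
    · exact hr v
  funext v
  rw [← h2 v, hx]
  rfl

theorem broom_conn (k : ℕ) : (broom k).Connected := by
  have h : ∀ v, (broom k).Reachable (Sum.inl 0) v := by
    have a01 : (broom k).Adj (Sum.inl 0) (Sum.inl 1) := Or.inl rfl
    have a12 : (broom k).Adj (Sum.inl 1) (Sum.inl 2) := Or.inl rfl
    have a23 : (broom k).Adj (Sum.inl 2) (Sum.inl 3) := Or.inl rfl
    rintro (v | v)
    · fin_cases v
      · exact SimpleGraph.Reachable.refl _
      · exact a01.reachable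
      · exact a01.reachable.trans a12.reachable
      · exact (a01.reachable.trans a12.reachable).trans a23.reachable
    · exact SimpleGraph.Adj.reachable (show (broom k).Adj (Sum.inl 0) (Sum.inr v) from rfl)
  rw [SimpleGraph.connected_iff]
  exact ⟨fun u v => (h u).symm.trans (h v), ⟨Sum.inl 0⟩⟩

open Classical in
/-- the eigenvector attached to a leaf -/
noncomputable def leafVec (k : ℕ) (i : Fin k) : Fin 4 ⊕ Fin k → ℝ
  | Sum.inl j => if j = 1 then -1 else if j = 3 then 1 else 0
  | Sum.inr j => if j = i then 1 else 0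

theorem leafVec_mem (k : ℕ) (i : Fin k) : leafVec k i ∈ eigsp (broom k) 0 := by
  apply broom_eq
  · simp [leafVec]
  · simp [leafVec]
  · simp [leafVec]
  · simp [leafVec]

theorem leafVec_sum (k : ℕ) (i : Fin k) : ∑ v, leafVec k i v = 1 := by
  rw [Fintype.sum_sum_type, Fin.sum_univ_four]
  simp [leafVec]

open Classical in
theorem lower_broom (k : ℕ) (hk : 1 ≤ k) : ∃ (V : Type) (_ : Finite V) (G : SimpleGraph V),
    Nat.card V = k + 4 ∧ G.Connected ∧
    ∃ lam, IsMain G lam ∧ ∃ X, IsStar G lam X ∧ (mainSet G lam X).card = k := by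
  refine ⟨Fin 4 ⊕ Fin k, inferInstance, broom k, by simp [add_comm], broom_conn k, 0,
    ⟨leafVec k ⟨0, hk⟩, leafVec_mem k _, by
      rw [finsum_eq_sum_of_fintype, leafVec_sum]; norm_num⟩, leaves k,
    ⟨?_, broom_compl k⟩, ?_⟩
  · -- dimension of the eigenspace
    let r : eigsp (broom k) 0 →ₗ[ℝ] (Fin k → ℝ) :=
      { toFun := fun x i => (x : Fin 4 ⊕ Fin k → ℝ) (Sum.inr i)
        map_add' := fun _ _ => rfl
        map_smul' := fun _ _ => rfl }
    have hinj : Function.Injective r := by
      rw [← LinearMap.ker_eq_bot, LinearMap.ker_eq_bot']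
      intro x hx
      apply Subtype.ext
      apply zero_of (leaves k) (broom_compl k)
      · intro w hw
        obtain ⟨i, rfl⟩ := (mem_leaves k w).1 hw
        exact congrFun hx i
      · intro w _
        exact eigsp_eq x.prop w
    have hsurj : Function.Surjective r := by
      intro y
      refine ⟨⟨fun v => match v with
        | Sum.inl j => if j = 1 then -∑ i, y i else if j = 3 then ∑ i, y i else 0
        | Sum.inr j => y j, ?_⟩, ?_⟩
      · apply broom_eq <;> simp
      · funext i
        rfl
    have h := (LinearEquiv.ofBijective r ⟨hinj, hsurj⟩).finrank_eq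
    rw [h, Module.finrank_fintype_fun_eq_card, Fintype.card_fin, leaves, card_map, card_univ,
      Fintype.card_fin]
  · have h1 : mainSet (broom k) 0 (leaves k) = leaves k := by
      apply Finset.filter_true_of_mem
      intro v hv
      obtain ⟨i, rfl⟩ := (mem_leaves k v).1 hv
      have hout : ∀ w, w ∉ {w | w ∉ leaves k ∨ w = Sum.inr i} → leafVec k i w = 0 := by
        rintro (w | w) hw
        · exfalso
          apply hw
          left
          intro h
          obtain ⟨j, hj⟩ := (mem_leaves k _).1 h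
          exact absurd hj (by simp)
        · have hwi : w ≠ i := fun e => hw (Or.inr (by rw [e]))
          simp [leafVec, hwi]
      refine ⟨fun w => leafVec k i w, ?_, ?_⟩
      · exact (mem_induce {w | w ∉ leaves k ∨ w = Sum.inr i} (leafVec k i) hout).2
          (fun v _ => eigsp_eq (leafVec_mem k i) v)
      · rw [fsum_sub {w | w ∉ leaves k ∨ w = Sum.inr i} (leafVec k i) hout, leafVec_sum]
        norm_num
    rw [h1, leaves, card_map, card_univ, Fintype.card_fin]

/-- **Q1 of MP_bb681f_co.** `M(n) = max(1, n - 4)` for every `n ≥ 1`. -/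
theorem result (n : ℕ) (hn : 1 ≤ n) : M n = max 1 (n - 4) := by
  have hub : ∀ k ∈ {k | ∃ (V : Type) (_ : Finite V) (G : SimpleGraph V), Nat.card V = n ∧
      G.Connected ∧ ∃ lam, IsMain G lam ∧ ∃ X, IsStar G lam X ∧ (mainSet G lam X).card = k},
      k ≤ max 1 (n - 4) := by
    rintro k ⟨V, _, G, hV, hG, lam, _, X, hX, rfl⟩
    have := Fintype.ofFinite V
    rw [← hV, Nat.card_eq_fintype_card]
    exact upper hG X hX
  have hmem : max 1 (n - 4) ∈ {k | ∃ (V : Type) (_ : Finite V) (G : SimpleGraph V),
      Nat.card V = n ∧ G.Connected ∧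
      ∃ lam, IsMain G lam ∧ ∃ X, IsStar G lam X ∧ (mainSet G lam X).card = k} := by
    rcases le_or_gt n 4 with h | h
    · obtain ⟨m, rfl⟩ : ∃ m, n = m + 1 := ⟨n - 1, by omega⟩
      have e : max 1 (m + 1 - 4) = 1 := by
        apply max_eq_left; omega
      rw [e]
      exact lower_one m
    · obtain ⟨k, rfl⟩ : ∃ k, n = k + 4 := ⟨n - 4, by omega⟩
      have e : max 1 (k + 4 - 4) = k := by
        rw [Nat.add_sub_cancel]; apply max_eq_right; omega
      rw [e]
      exact lower_broom k (by omega)
  apply le_antisymm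
  · exact csSup_le ⟨_, hmem⟩ hub
  · exact le_csSup ⟨_, hub⟩ hmem

end Pool.Agent.Results.MP_bb681f_co.MaxMain
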